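import Pool.Agent.W999.ES.Final
import Pool.Agent.W999.ES.QB
import Pool.Agent.W989.ES.Poi
import Pool.Agent.W646.ES.Cnt
import Pool.Agent.W646.ES.Mix
import Pool.Agent.W646.ES.Cell
import Pool.Agent.W933.ES.Poly
import Pool.Agent.W12.ES.Ind
import Pool.Agent.W989.ES.Pq

/-!
An exact uniform sampler for the spanning trees of simplicial complexes, in expected polynomial
time (a positive answer to Q1 of MP_d8fb5e_lc).
-/

set_option autoImplicit false

namespace Pool.Agent.Results.MP_d8fb5e_lc.ExactSampler

open MeasureTheory Turing
open Pool.Agent.NPC Pool.Agent.W999.ES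

/-- There is a randomized algorithm with the following properties. It tosses independent fair coins;
after each toss (and at the start) a polynomial-time Turing machine `M` is run on the input `Δ` and
the list of the results of all coins tossed so far, and says whether a further coin is needed
(`none`), or what the output is (`some Y`). For every simplicial complex `Δ` of any dimension
`d ≥ 1`, given by the list of its faces, the output is each spanning tree `Y` of `Δ` with
probability exactly `1 / |T(Δ)|`; and the expected total running time (with any polynomial overhead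
in each round) is at most a polynomial in the number of faces. -/
theorem result : ∃ (F : List (List ℕ) → List Bool → Option (List (List ℕ)))
    (M : TM2ComputableInPolyTime (bits : List (List ℕ) × List Bool → List Bool)
      (bits : Option (List (List ℕ)) → List Bool) (fun p => F p.1 p.2)),
    (∀ Δ, IsComplex Δ → (trees Δ).Nonempty ∧
      ∀ Y ∈ trees Δ, coins {ω | Outputs F Δ ω Y} = 1 / (trees Δ).card) ∧
    (∀ overhead : Polynomial ℕ, ∃ p : Polynomial ℕ, ∀ Δ, IsComplex Δ →
      ∫⁻ ω, cost F (fun l => M.time.eval l + overhead.eval l) Δ ω ∂coins ≤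
        (p.eval Δ.length : ℕ)) := by
  have hpoi := Pool.Agent.W989.ES.poi
  have hcnt := Pool.Agent.W646.ES.cnt
  have hmix := Pool.Agent.W646.ES.mix
  have hcell : S_CELL := Pool.Agent.W646.ES.Cell.cellT
  have hpoly : S_POLY := Pool.Agent.W933.ES.poly
  have hind : S_IND := Pool.Agent.W12.ES.ind
  have hpq : S_PQ := Pool.Agent.W989.ESPQ.pq
  obtain ⟨⟨M⟩, h2, h3⟩ := final_of (core_of hcnt hmix hcell) (qb hpoi hind) hpoly hpq
  refine ⟨samp, M, h2, fun overhead => ?_⟩
  obtain ⟨p, hp⟩ := h3 (M.time + overhead)
  refine ⟨p, fun Δ hΔ => ?_⟩
  simpa only [Polynomial.eval_add] using hp Δ hΔ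

end Pool.Agent.Results.MP_d8fb5e_lc.ExactSampler
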